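import Pool.Agent.W79.ST.Defs

set_option autoImplicit false

namespace Pool.Agent.W120.ST

open Pool.Agent.W79.ST

open scoped Classical

theorem thz : S_THZ := by
  intro A B _ m fam Q h1 h2
  let t : A → Finset A := fun a => Finset.univ.filter (fun b => fam b = fam a)
  have ht : ∀ a, (t a).card ≤ m a := by
    intro a
    have h3 : ({b | fam b = fam a} : Set A) = (t a : Set A) := by
      ext b
      simp [t]
    have h4 := h1 a
    rw [h3, Set.ncard_coe_finset] at h4
    exact h4
  have h5 : Q.ncard ≤ ((Fintype.piFinset t : Finset (A → A)) : Set (A → A)).ncard := by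
    apply Set.ncard_le_ncard_of_injOn (fun β : Equiv.Perm A => (β : A → A))
    · intro β hβ
      simp only [Finset.mem_coe, Fintype.mem_piFinset, t, Finset.mem_filter, Finset.mem_univ,
        true_and]
      exact h2 β hβ
    · intro β _ γ _ h
      exact Equiv.ext (fun a => congrFun h a)
  rw [Set.ncard_coe_finset, Fintype.card_piFinset] at h5
  calc Q.ncard ≤ ∏ a, (t a).card := h5
    _ ≤ ∏ a, 2 ^ m a := Finset.prod_le_prod' (fun a _ => le_trans (ht a) Nat.lt_two_pow_self.le)
    _ = 2 ^ (∑ a, m a) := Finset.prod_pow_eq_pow_sum _ _ _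

theorem exp : S_EXP := by
  intro Z A Z' A' S S' α β h
  obtain ⟨h1, h2, h3⟩ := h
  let e0 : Z ⊕ A × ℕ ≃ Z' ⊕ A' × ℕ := Equiv.sumCongr α (Equiv.prodCongr β (Equiv.refl ℕ))
  have hVS : ∀ p, p ∈ VS (Z := Z) S.m ↔ e0 p ∈ VS (Z := Z') S'.m := by
    intro p
    rcases p with z | ⟨a, i⟩
    · constructor
      · intro _ q hq
        exact absurd hq (by simp [e0])
      · intro _ q hq
        exact absurd hq (by simp)
    · constructor
      · intro hp q hq
        have h4 : q = (β a, i) := by
          simp only [e0, Equiv.sumCongr_apply, Sum.map_inr, Sum.inr.injEq] at hq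
          exact hq.symm
        subst h4
        rw [h3]
        exact hp (a, i) rfl
      · intro hp q hq
        have h4 : q = (a, i) := by
          simp only [Sum.inr.injEq] at hq
          exact hq.symm
        subst h4
        have h5 := hp (β a, i) rfl
        rw [h3] at h5
        exact h5
  have hadj : ∀ p q, (xgr S').Adj (e0 p) (e0 q) ↔ (xgr S).Adj p q := by
    intro p q
    rcases p with z | ⟨a, i⟩ <;> rcases q with w | ⟨b, j⟩
    · exact h1 (.inl z) (.inl w)
    · exact h1 (.inl z) (.inr b)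
    · exact h1 (.inr a) (.inl w)
    · have h4 := h1 (.inr a) (.inr b)
      have h5 := h2 a b
      change ((i = j → S'.E.Adj (.inr (β a)) (.inr (β b))) ∧ (i ≠ j → S'.F (β a) (β b))) ↔
        ((i = j → S.E.Adj (.inr a) (.inr b)) ∧ (i ≠ j → S.F a b))
      rw [h5]
      constructor
      · rintro ⟨h6, h7⟩
        exact ⟨fun h => h4.mp (h6 h), h7⟩
      · rintro ⟨h6, h7⟩
        exact ⟨fun h => h4.mpr (h6 h), h7⟩
  refine ⟨⟨Equiv.subtypeEquiv e0 hVS, ?_⟩⟩
  intro p q
  exact hadj p.1 q.1

lemma count_g (W : Type) [Fintype W] (M : ℕ) :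
    (((Fintype.piFinset (fun _ : W => Finset.range (M + 1))).filter
      (fun g => ∑ w, g w ≤ M)).card : ℝ) ≤ 2 ^ (Fintype.card W + M) := by
  set s := (Fintype.piFinset (fun _ : W => Finset.range (M + 1))).filter
      (fun g => ∑ w, g w ≤ M) with hs
  have h1 : (s.card : ℝ) * (1 / 2) ^ M ≤ ∑ g ∈ s, ∏ w, (1 / 2 : ℝ) ^ (g w) := by
    rw [← nsmul_eq_mul]
    apply Finset.card_nsmul_le_sum
    intro g hg
    rw [hs, Finset.mem_filter] at hg
    rw [Finset.prod_pow_eq_pow_sum]
    exact pow_le_pow_of_le_one (by norm_num) (by norm_num) hg.2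
  have h2 : ∑ g ∈ s, ∏ w, (1 / 2 : ℝ) ^ (g w) ≤
      ∑ g ∈ Fintype.piFinset (fun _ : W => Finset.range (M + 1)), ∏ w, (1 / 2 : ℝ) ^ (g w) := by
    apply Finset.sum_le_sum_of_subset_of_nonneg (Finset.filter_subset _ _)
    intro g _ _
    exact Finset.prod_nonneg (fun w _ => by positivity)
  have h3 : ∑ g ∈ Fintype.piFinset (fun _ : W => Finset.range (M + 1)),
      ∏ w, (1 / 2 : ℝ) ^ (g w) ≤ 2 ^ Fintype.card W := by
    rw [← Finset.prod_univ_sum (fun _ : W => Finset.range (M + 1)) (fun _ k => (1 / 2 : ℝ) ^ k),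
      ← Finset.card_univ, ← Finset.prod_const]
    apply Finset.prod_le_prod
    · intro w _
      exact Finset.sum_nonneg (fun k _ => by positivity)
    · intro w _
      have h4 : ∀ n : ℕ, ∑ k ∈ Finset.range n, (1 / 2 : ℝ) ^ k = 2 - 2 * (1 / 2) ^ n := by
        intro n
        induction n with
        | zero => norm_num
        | succ n ih =>
          rw [Finset.sum_range_succ, ih, pow_succ]
          ring
      rw [h4]
      have : (0 : ℝ) ≤ (1 / 2) ^ (M + 1) := by positivity
      linarith
  have h4 : (s.card : ℝ) * (1 / 2) ^ M ≤ 2 ^ Fintype.card W := le_trans h1 (le_trans h2 h3)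
  calc (s.card : ℝ) = (s.card : ℝ) * (1 / 2) ^ M * 2 ^ M := by
        rw [mul_assoc, ← mul_pow]
        norm_num
    _ ≤ 2 ^ Fintype.card W * 2 ^ M := by
        apply mul_le_mul_of_nonneg_right h4 (by positivity)
    _ = 2 ^ (Fintype.card W + M) := by rw [pow_add]

theorem dcount : S_DCOUNT := by
  intro W _ M
  set s := (Fintype.piFinset (fun _ : W => Finset.range (M + 1))).filter
      (fun g => ∑ w, g w ≤ M) with hs
  set t := Fintype.piFinset (fun _ : W => Finset.range 4) with ht
  let φ : (W → ℕ × ℕ) → (W → ℕ) × (W → ℕ) := fun f => (fun w => (f w).1, fun w => (f w).2)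
  have hinj : Function.Injective φ := by
    intro f g h
    funext w
    have h1 := congrFun (congrArg Prod.fst h) w
    have h2 := congrFun (congrArg Prod.snd h) w
    exact Prod.ext h1 h2
  have hmap : ∀ f ∈ ({f | (∀ w, (f w).1 ≤ 3) ∧ ∑ w, (f w).2 ≤ M} : Set (W → ℕ × ℕ)),
      φ f ∈ ((t ×ˢ s : Finset ((W → ℕ) × (W → ℕ))) : Set ((W → ℕ) × (W → ℕ))) := by
    intro f hf
    obtain ⟨h1, h2⟩ := hf
    rw [Finset.mem_coe, Finset.mem_product, ht, hs, Fintype.mem_piFinset, Finset.mem_filter,
      Fintype.mem_piFinset]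
    refine ⟨fun w => ?_, fun w => ?_, h2⟩
    · rw [Finset.mem_range]
      have := h1 w
      simp only [φ]
      omega
    · rw [Finset.mem_range]
      have h3 := Finset.single_le_sum (f := fun w => (f w).2) (fun i _ => Nat.zero_le _)
        (Finset.mem_univ w)
      simp only [φ] at h3 ⊢
      omega
  refine ⟨?_, ?_⟩
  · exact Set.Finite.of_injOn hmap hinj.injOn (Finset.finite_toSet _)
  · have h1 := Set.ncard_le_ncard_of_injOn φ hmap hinj.injOn (Finset.finite_toSet _)
    rw [Set.ncard_coe_finset, Finset.card_product] at h1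
    have h2 : t.card = 4 ^ Fintype.card W := by
      rw [ht, Fintype.card_piFinset]
      simp
    have h3 : s.card ≤ 2 ^ (Fintype.card W + M) := by
      exact_mod_cast count_g W M
    rw [h2] at h1
    exact le_trans h1 (Nat.mul_le_mul_left _ h3)

end Pool.Agent.W120.ST
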